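import Pool.Agent.T6.H9.NL.Defs
import Pool.Agent.T6.H9.QM.Pair

/-!
# Local computations for the average of the Tate sums

Owner helper9.
-/

set_option autoImplicit false
set_option linter.unusedSectionVars false
set_option linter.style.haveILetI false
set_option linter.unusedVariables false

open Finset

namespace Pool.Agent.T6.H9.NL

open Pool.Agent.T6.H9.QM Pool.Agent.T6.H9.TateAvg

section mono

variable {F : Type} [Field F] {M : ℕ}

/-- value of a monomial -/
def mv {a : ℕ} (x : Fin M → F) (e : Mon M a) : F := ∏ j, x j ^ (e.1 j : ℕ)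

/-- the monomial `x_k^a` -/
def mk1 (a : ℕ) (k : Fin M) : Mon M a :=
  ⟨fun j => if j = k then ⟨a, by omega⟩ else 0, by
    rw [Finset.sum_eq_single k]
    · simp
    · intro j _ hj
      simp [hj]
    · intro h
      exact absurd (Finset.mem_univ k) h⟩

lemma mv_mk1 (a : ℕ) (k : Fin M) (x : Fin M → F) : mv x (mk1 a k) = x k ^ a := by
  unfold mv mk1
  rw [Finset.prod_eq_single k]
  · simp
  · intro j _ hj
    simp [hj]
  · intro h
    exact absurd (Finset.mem_univ k) h

/-- the monomial `x_k^(a-1) x_l` -/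
def mk2 {a : ℕ} (ha : 1 ≤ a) {k l : Fin M} (hkl : l ≠ k) : Mon M a :=
  ⟨fun j => if j = k then ⟨a - 1, by omega⟩ else if j = l then ⟨1, by omega⟩ else 0, by
    rw [← Finset.add_sum_erase _ _ (Finset.mem_univ k),
      Finset.sum_eq_single_of_mem l (Finset.mem_erase.2 ⟨hkl, Finset.mem_univ l⟩)]
    · simp [hkl]
      omega
    · intro j hj hjl
      simp [Finset.ne_of_mem_erase hj, hjl]⟩

lemma mv_mk2 {a : ℕ} (ha : 1 ≤ a) {k l : Fin M} (hkl : l ≠ k) (x : Fin M → F) :
    mv x (mk2 ha hkl) = x k ^ (a - 1) * x l := by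
  unfold mv mk2
  rw [← Finset.mul_prod_erase _ _ (Finset.mem_univ k),
    Finset.prod_eq_single_of_mem l (Finset.mem_erase.2 ⟨hkl, Finset.mem_univ l⟩)]
  · simp [hkl]
  · intro j hj hjl
    simp [Finset.ne_of_mem_erase hj, hjl]

/-- value of a form -/
def fv {a : ℕ} (x : Fin M → F) (c : Mon M a → F) : F := ∑ e, c e * mv x e

lemma fv_add {a : ℕ} (x : Fin M → F) (c d : Mon M a → F) : fv x (c + d) = fv x c + fv x d := by
  unfold fv
  rw [← Finset.sum_add_distrib]
  refine Finset.sum_congr rfl fun e _ => ?_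
  rw [Pi.add_apply]
  ring

lemma fv_single {a : ℕ} (x : Fin M → F) (e : Mon M a) (α : F) :
    fv x (Pi.single e α) = α * mv x e := by
  classical
  unfold fv
  rw [Fintype.sum_eq_single e]
  · rw [Pi.single_eq_same]
  · intro e' he'
    rw [Pi.single_eq_of_ne he', zero_mul]

/-- a form with a given value at a point -/
lemma fv_surj1 {a : ℕ} {x : Fin M → F} (hx : x ≠ 0) (α : F) :
    ∃ c : Mon M a → F, fv x c = α := by
  obtain ⟨k, hk⟩ := Function.ne_iff.1 hx
  have hk' : x k ≠ 0 := hk
  refine ⟨Pi.single (mk1 a k) (α / x k ^ a), ?_⟩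
  rw [fv_single, mv_mk1]
  have : x k ^ a ≠ 0 := pow_ne_zero _ hk'
  field_simp

lemma fv_det {a : ℕ} {x y : Fin M → F} {e e' : Mon M a} (h : mv x e * mv y e' - mv x e' * mv y e ≠ 0)
    (α β : F) : ∃ c : Mon M a → F, fv x c = α ∧ fv y c = β := by
  refine ⟨Pi.single e ((α * mv y e' - β * mv x e') / (mv x e * mv y e' - mv x e' * mv y e)) +
    Pi.single e' ((β * mv x e - α * mv y e) / (mv x e * mv y e' - mv x e' * mv y e)), ?_, ?_⟩
  · rw [fv_add, fv_single, fv_single, div_mul_eq_mul_div, div_mul_eq_mul_div, ← add_div,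
      div_eq_iff h]
    ring
  · rw [fv_add, fv_single, fv_single, div_mul_eq_mul_div, div_mul_eq_mul_div, ← add_div,
      div_eq_iff h]
    ring

/-- forms of positive degree separate points -/
lemma fv_surj2 {a : ℕ} (ha : 1 ≤ a) {x y : Fin M → F} (hx : x ≠ 0) (hy : y ≠ 0)
    (hxy : ∀ r : F, y ≠ r • x) (α β : F) : ∃ c : Mon M a → F, fv x c = α ∧ fv y c = β := by
  by_cases hcom : ∃ k, x k ≠ 0 ∧ y k ≠ 0
  · obtain ⟨k, hxk, hyk⟩ := hcom
    obtain ⟨l, hl⟩ : ∃ l, y l * x k ≠ y k * x l := by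
      by_contra hcon
      push Not at hcon
      apply hxy (y k / x k)
      funext l
      rw [Pi.smul_apply, smul_eq_mul]
      have := hcon l
      field_simp
      linear_combination this
    have hlk : l ≠ k := by
      rintro rfl
      exact hl rfl
    refine fv_det (e := mk1 a k) (e' := mk2 ha hlk) ?_ α β
    rw [mv_mk1, mv_mk1, mv_mk2, mv_mk2]
    have e1 : x k ^ a = x k ^ (a - 1) * x k := by
      rw [← pow_succ]
      congr 1
      omega
    have e2 : y k ^ a = y k ^ (a - 1) * y k := by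
      rw [← pow_succ]
      congr 1
      omega
    rw [e1, e2]
    have h1 : x k ^ (a - 1) * x k * (y k ^ (a - 1) * y l) -
        x k ^ (a - 1) * x l * (y k ^ (a - 1) * y k) =
        x k ^ (a - 1) * y k ^ (a - 1) * (y l * x k - y k * x l) := by ring
    rw [h1]
    exact mul_ne_zero (mul_ne_zero (pow_ne_zero _ hxk) (pow_ne_zero _ hyk)) (sub_ne_zero.2 hl)
  · push Not at hcom
    obtain ⟨k, hk⟩ := Function.ne_iff.1 hx
    obtain ⟨l, hl⟩ := Function.ne_iff.1 hy
    have hk' : x k ≠ 0 := hk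
    have hl' : y l ≠ 0 := hl
    have hyk : y k = 0 := hcom k hk'
    have hxl : x l = 0 := by
      by_contra hcon
      exact hl' (hcom l hcon)
    refine fv_det (e := mk1 a k) (e' := mk1 a l) ?_ α β
    rw [mv_mk1, mv_mk1, mv_mk1, mv_mk1, hyk, hxl, zero_pow (by omega), zero_mul, sub_zero]
    exact mul_ne_zero (pow_ne_zero _ hk') (pow_ne_zero _ hl')

end mono

section

variable {F : Type} [Field F] [Fintype F] [DecidableEq F] {σ : Type} [Fintype σ] [DecidableEq σ]
  {M D : ℕ} {e : σ → ℕ}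

/-- the value of `∑ h_i g_i` at a point, given the values of the `g_i` -/
def val (x : Fin M → F) (γ : σ → F) : (Idx M D e → F) →+ F where
  toFun c := ∑ i, fv x (fun m => c ⟨i, m⟩) * γ i
  map_zero' := by
    unfold fv
    simp
  map_add' c d := by
    rw [← Finset.sum_add_distrib]
    refine Finset.sum_congr rfl fun i _ => ?_
    have h1 : (fun m => (c + d) ⟨i, m⟩) = (fun m => c ⟨i, m⟩) + fun m => d ⟨i, m⟩ := rfl
    rw [h1, fv_add]
    ring

lemma val_apply (x : Fin M → F) (γ : σ → F) (c : Idx M D e → F) :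
    val x γ c = ∑ i, fv x (fun m => c ⟨i, m⟩) * γ i := rfl

/-- coefficients supported in one block -/
def blk (i : σ) (b : Mon M (D - e i) → F) : Idx M D e → F :=
  fun p => if h : p.1 = i then b (h ▸ p.2) else 0

lemma blk_same (i : σ) (b : Mon M (D - e i) → F) :
    (fun m => blk (M := M) (D := D) (e := e) i b ⟨i, m⟩) = b := by
  funext m
  unfold blk
  simp

lemma blk_ne {i j : σ} (h : j ≠ i) (b : Mon M (D - e i) → F) :
    (fun m => blk (M := M) (D := D) (e := e) i b ⟨j, m⟩) = 0 := by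
  funext m
  unfold blk
  simp [h]

lemma val_blk (x : Fin M → F) (γ : σ → F) (i : σ) (b : Mon M (D - e i) → F) :
    val x γ (blk (M := M) (D := D) (e := e) i b) = fv x b * γ i := by
  rw [val_apply, Finset.sum_eq_single i]
  · rw [blk_same]
  · intro j _ hj
    rw [blk_ne hj]
    unfold fv
    simp
  · intro h
    exact absurd (Finset.mem_univ i) h

lemma val_surj {x : Fin M → F} (hx : x ≠ 0) {γ : σ → F} (hγ : ∃ i, γ i ≠ 0) :
    Function.Surjective (val x γ : (Idx M D e → F) →+ F) := by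
  intro α
  obtain ⟨i, hi⟩ := hγ
  obtain ⟨b, hb⟩ := fv_surj1 (a := D - e i) hx (α / γ i)
  refine ⟨blk i b, ?_⟩
  rw [val_blk, hb]
  field_simp

lemma val2_surj (he : ∀ i, e i < D) {x y : Fin M → F} (hx : x ≠ 0) (hy : y ≠ 0)
    (hxy : ∀ r : F, y ≠ r • x) {γ γ' : σ → F} (hγ : ∃ i, γ i ≠ 0) (hγ' : ∃ i, γ' i ≠ 0) :
    Function.Surjective ((val x γ).prod (val y γ') : (Idx M D e → F) →+ F × F) := by
  rintro ⟨α, β⟩
  obtain ⟨i, hi⟩ := hγ
  obtain ⟨j, hj⟩ := hγ'
  obtain ⟨b, hb, hb'⟩ := fv_surj2 (a := D - e i) (by have := he i; omega) hx hy hxy (α / γ i) 0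
  obtain ⟨b2, hb2, hb2'⟩ := fv_surj2 (a := D - e j) (by have := he j; omega) hx hy hxy 0 (β / γ' j)
  refine ⟨blk i b + blk j b2, ?_⟩
  rw [map_add]
  refine Prod.ext ?_ ?_
  · change val x γ (blk i b) + val x γ (blk j b2) = α
    rw [val_blk, val_blk, hb, hb2]
    field_simp
    ring
  · change val y γ' (blk i b) + val y γ' (blk j b2) = β
    rw [val_blk, val_blk, hb', hb2']
    field_simp
    ring

/-- the centred indicator of zero -/
noncomputable def ind (a : F) : ℝ := (if a = 0 then 1 else 0) - 1 / (Fintype.card F : ℝ)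

lemma card_pos' : (1 : ℝ) < (Fintype.card F : ℝ) := by
  exact_mod_cast (Fintype.one_lt_card : 1 < Fintype.card F)

lemma ind_mean : rmean (ind : F → ℝ) = 0 := by
  have hc := card_pos' (F := F)
  rw [rmean_eq]
  unfold ind
  rw [Finset.sum_sub_distrib, Finset.sum_const, Finset.card_univ, nsmul_eq_mul]
  simp

lemma ind_sq : rmean (fun a : F => ind a * ind a) ≤ 1 / (Fintype.card F : ℝ) := by
  have hc := card_pos' (F := F)
  have h1 : (fun a : F => ind a * ind a) = fun a : F =>
      (1 - 2 / (Fintype.card F : ℝ)) * ind a +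
        (1 - 1 / (Fintype.card F : ℝ)) * (1 / (Fintype.card F : ℝ)) := by
    funext a
    unfold ind
    split_ifs <;> field_simp <;> ring
  rw [h1, rmean_add, rmean_const_mul, ind_mean, mul_zero, zero_add, rmean_const]
  have h2 : 0 < 1 / (Fintype.card F : ℝ) := by positivity
  nlinarith

lemma ind_abs (a : F) : |ind a| ≤ 1 := by
  have hc := card_pos' (F := F)
  have h1 : 0 < 1 / (Fintype.card F : ℝ) := by positivity
  have h2 : 1 / (Fintype.card F : ℝ) ≤ 1 := by
    rw [div_le_one (by linarith)]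
    exact hc.le
  unfold ind
  rw [abs_le]
  split_ifs
  · constructor <;> linarith
  · constructor <;> linarith

/-- the local function; `P` is the set of the nonzero solutions outside the base locus, `γ` gives the
values of the `g_i` -/
noncomputable def Wl (P : Finset (Fin M → F)) (γ : (Fin M → F) → σ → F)
    (c : Idx M D e → F) : ℝ :=
  (1 / ((Fintype.card F : ℝ) - 1)) * ∑ x ∈ P, ind (val x (γ x) c)

variable {P : Finset (Fin M → F)} {γ : (Fin M → F) → σ → F}

lemma Wl_mean (hP : ∀ x ∈ P, x ≠ 0 ∧ ∃ i, γ x i ≠ 0) :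
    rmean (Wl P γ : (Idx M D e → F) → ℝ) = 0 := by
  unfold Wl
  rw [rmean_const_mul, pair_zero, mul_zero]
  intro x hx
  rw [marg (val x (γ x)) (val_surj (hP x hx).1 (hP x hx).2) ind]
  exact ind_mean

lemma Wl_abs (c : Idx M D e → F) :
    |Wl P γ c| ≤ (P.card : ℝ) / ((Fintype.card F : ℝ) - 1) := by
  have hc := card_pos' (F := F)
  have hq : (0 : ℝ) < (Fintype.card F : ℝ) - 1 := by linarith
  unfold Wl
  rw [abs_mul, abs_of_nonneg (by positivity : (0 : ℝ) ≤ 1 / ((Fintype.card F : ℝ) - 1))]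
  have h1 := pair_abs P (fun x (c : Idx M D e → F) => ind (val x (γ x) c))
    (fun x _ c => ind_abs _) c
  refine (mul_le_mul_of_nonneg_left h1 (by positivity)).trans (le_of_eq ?_)
  ring

lemma Wl_sq (he : ∀ i, e i < D) (hP : ∀ x ∈ P, x ≠ 0 ∧ ∃ i, γ x i ≠ 0) :
    rmean (fun c : Idx M D e → F => Wl P γ c ^ 2) ≤
      ((P.card : ℝ) / ((Fintype.card F : ℝ) - 1)) * (1 / (Fintype.card F : ℝ)) := by
  classical
  have hc := card_pos' (F := F)
  have hq : (0 : ℝ) < (Fintype.card F : ℝ) - 1 := by linarith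
  have e1 : (fun c : Idx M D e → F => Wl P γ c ^ 2) = fun c =>
      (1 / ((Fintype.card F : ℝ) - 1)) ^ 2 *
        ∑ x ∈ P, ∑ y ∈ P, ind (val x (γ x) c) * ind (val y (γ y) c) := by
    funext c
    unfold Wl
    rw [mul_pow, sq (∑ x ∈ P, ind (val x (γ x) c)), Finset.sum_mul_sum]
  rw [e1, rmean_const_mul, rmean_sum]
  have hself : ∀ x ∈ P, rmean (fun c : Idx M D e → F => ind (val x (γ x) c) *
      ind (val x (γ x) c)) ≤ 1 / (Fintype.card F : ℝ) := by
    intro x hx
    have h1 := marg (val x (γ x)) (val_surj (D := D) (e := e) (hP x hx).1 (hP x hx).2)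
      (fun a => ind a * ind a)
    rw [h1]
    exact ind_sq
  have hpair : ∀ x ∈ P, ∀ y ∈ P, rmean (fun c : Idx M D e → F => ind (val x (γ x) c) *
      ind (val y (γ y) c)) ≤ 1 / (Fintype.card F : ℝ) := by
    intro x hx y hy
    have h1 : ∀ c : Idx M D e → F, ind (val x (γ x) c) * ind (val y (γ y) c) ≤
        (1 / 2) * (ind (val x (γ x) c) * ind (val x (γ x) c)) +
        (1 / 2) * (ind (val y (γ y) c) * ind (val y (γ y) c)) := by
      intro c
      nlinarith [sq_nonneg (ind (val x (γ x) c) - ind (val y (γ y) c))]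
    have h2 : rmean (fun c : Idx M D e → F => ind (val x (γ x) c) * ind (val y (γ y) c)) ≤
        rmean (fun c : Idx M D e → F =>
        (1 / 2) * (ind (val x (γ x) c) * ind (val x (γ x) c)) +
        (1 / 2) * (ind (val y (γ y) c) * ind (val y (γ y) c))) := by
      rw [rmean_eq, rmean_eq]
      exact div_le_div_of_nonneg_right (Finset.sum_le_sum fun c _ => h1 c) (Nat.cast_nonneg _)
    rw [rmean_add, rmean_const_mul, rmean_const_mul] at h2
    have h3 := hself x hx
    have h4 := hself y hy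
    linarith
  have hrow : ∀ x ∈ P, rmean (fun c : Idx M D e → F =>
      ∑ y ∈ P, ind (val x (γ x) c) * ind (val y (γ y) c)) ≤
      ((Fintype.card F : ℝ) - 1) * (1 / (Fintype.card F : ℝ)) := by
    intro x hx
    rw [rmean_sum]
    -- only the multiples of `x` contribute
    set S : Finset (Fin M → F) := P.filter fun y => ∃ r : F, y = r • x with hS
    have h1 : ∑ y ∈ P, rmean (fun c : Idx M D e → F => ind (val x (γ x) c) *
        ind (val y (γ y) c)) = ∑ y ∈ S, rmean (fun c : Idx M D e → F =>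
          ind (val x (γ x) c) * ind (val y (γ y) c)) := by
      symm
      refine Finset.sum_subset (Finset.filter_subset _ _) fun y hy hyS => ?_
      have hxy : ∀ r : F, y ≠ r • x := fun r h =>
        hyS (Finset.mem_filter.2 ⟨hy, r, h⟩)
      have h2 := indep ((val x (γ x)).prod (val y (γ y)) : (Idx M D e → F) →+ F × F)
        (val2_surj he (hP x hx).1 (hP y hy).1 hxy (hP x hx).2 (hP y hy).2) ind ind
      rw [ind_mean, zero_mul] at h2
      exact h2
    rw [h1]
    refine (Finset.sum_le_sum fun y hy => hpair x hx y (Finset.mem_filter.1 hy).1).trans ?_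
    rw [Finset.sum_const, nsmul_eq_mul]
    refine mul_le_mul_of_nonneg_right ?_ (by positivity)
    have h3 : S ⊆ (univ.erase (0 : F)).image fun r => r • x := by
      intro y hy
      obtain ⟨hyP, r, hr⟩ := Finset.mem_filter.1 hy
      rw [Finset.mem_image]
      refine ⟨r, Finset.mem_erase.2 ⟨?_, Finset.mem_univ r⟩, hr.symm⟩
      rintro rfl
      rw [zero_smul] at hr
      exact (hP y hyP).1 hr
    have h4 : S.card ≤ Fintype.card F - 1 := by
      refine (Finset.card_le_card h3).trans (Finset.card_image_le.trans ?_)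
      rw [Finset.card_erase_of_mem (Finset.mem_univ _), Finset.card_univ]
    have h5 : ((Fintype.card F - 1 : ℕ) : ℝ) = (Fintype.card F : ℝ) - 1 := by
      rw [Nat.cast_sub Fintype.one_lt_card.le, Nat.cast_one]
    rw [← h5]
    exact_mod_cast h4
  refine (mul_le_mul_of_nonneg_left (Finset.sum_le_sum hrow) (sq_nonneg _)).trans (le_of_eq ?_)
  rw [Finset.sum_const, nsmul_eq_mul]
  field_simp

end

end Pool.Agent.T6.H9.NL
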