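import Pool.Agent.T6.H9.NL.Loc
import Pool.Agent.T6.H9.QM.Wrap

/-!
# The average of the Tate sums of the members of a linear system

Owner helper9.
-/

set_option autoImplicit false
set_option linter.unusedSectionVars false
set_option linter.style.haveILetI false
set_option linter.unusedVariables false

open Finset NumberField IsDedekindDomain

namespace Pool.Agent.T6.H9.NL

open Pool.Agent.T6.H9.MV Pool.Agent.T6.H9.HY Pool.Agent.T6.H9.QM Pool.Agent.T6.H9.TateAvg

section

variable {K : Type} [Field K] [NumberField K] {σ : Type} [Fintype σ] [DecidableEq σ]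
  {M D : ℕ} {e : σ → ℕ}

/-- evaluation modulo `v` -/
noncomputable abbrev ev {v : HeightOneSpectrum (𝓞 K)} (x : Fin M → kv v)
    (p : MvPolynomial (Fin M) (𝓞 K)) : kv v :=
  MvPolynomial.eval₂Hom (Ideal.Quotient.mk v.asIdeal) x p

lemma ev_member (g : σ → MvPolynomial (Fin M) (𝓞 K)) (c : Idx M D e → 𝓞 K)
    (v : HeightOneSpectrum (𝓞 K)) (x : Fin M → kv v) :
    ev x (member g c) = val x (fun i => ev x (g i)) (redG v _ c) := by
  unfold ev member
  rw [map_sum, val_apply, Fintype.sum_sigma]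
  refine Finset.sum_congr rfl fun i _ => ?_
  unfold fv
  rw [Finset.sum_mul]
  refine Finset.sum_congr rfl fun m _ => ?_
  rw [map_mul, map_mul, map_prod]
  congr 2
  · rw [MvPolynomial.coe_eval₂Hom, MvPolynomial.eval₂_C]
    rfl
  · unfold mv
    refine Finset.prod_congr rfl fun j _ => ?_
    rw [map_pow, MvPolynomial.coe_eval₂Hom, MvPolynomial.eval₂_X]

variable (Z : Set (MvPolynomial (Fin M) (𝓞 K))) (g : σ → MvPolynomial (Fin M) (𝓞 K))

open Classical in
/-- nonzero solutions of a system -/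
noncomputable def sol (S : Set (MvPolynomial (Fin M) (𝓞 K))) (v : HeightOneSpectrum (𝓞 K)) :
    Finset (Fin M → kv v) := univ.filter fun x => x ≠ 0 ∧ ∀ p ∈ S, ev x p = 0

open Classical in
/-- nonzero solutions outside the base locus -/
noncomputable def out (Z : Set (MvPolynomial (Fin M) (𝓞 K)))
    (g : σ → MvPolynomial (Fin M) (𝓞 K)) (v : HeightOneSpectrum (𝓞 K)) :
    Finset (Fin M → kv v) := (sol Z v).filter fun x => ∃ i, ev x (g i) ≠ 0

lemma points_eq (S : Set (MvPolynomial (Fin M) (𝓞 K))) (v : HeightOneSpectrum (𝓞 K)) :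
    points S v = ((sol S v).card : ℝ) / ((qv v : ℝ) - 1) := by
  classical
  unfold points sol
  rw [Nat.card_eq_fintype_card, Fintype.card_subtype]

lemma q_sub_pos (v : HeightOneSpectrum (𝓞 K)) : (0 : ℝ) < (qv v : ℝ) - 1 := by
  have h := two_le_qv v
  have h1 : (2 : ℝ) ≤ qv v := by exact_mod_cast h
  linarith

lemma sol_union (v : HeightOneSpectrum (𝓞 K)) :
    (sol (Z ∪ Set.range g) v).card + (out Z g v).card = (sol Z v).card := by
  classical
  have h1 : sol (Z ∪ Set.range g) v = (sol Z v).filter fun x => ¬ ∃ i, ev x (g i) ≠ 0 := by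
    ext x
    simp only [sol, Finset.mem_filter, Finset.mem_univ, true_and, Set.mem_union, Set.mem_range,
      not_exists, not_not]
    constructor
    · rintro ⟨h2, h3⟩
      exact ⟨⟨h2, fun p hp => h3 p (Or.inl hp)⟩, fun i => h3 _ (Or.inr ⟨i, rfl⟩)⟩
    · rintro ⟨⟨h2, h3⟩, h4⟩
      refine ⟨h2, fun p hp => ?_⟩
      rcases hp with hp | ⟨i, rfl⟩
      · exact h3 p hp
      · exact h4 i
  rw [h1, out, add_comm]
  exact Finset.card_filter_add_card_filter_not _

lemma sol_insert (c : Idx M D e → 𝓞 K) (v : HeightOneSpectrum (𝓞 K)) :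
    (sol (insert (member g c) Z) v).card = (sol (Z ∪ Set.range g) v).card +
      ((out Z g v).filter fun x => ev x (member g c) = 0).card := by
  classical
  have hz : ∀ x : Fin M → kv v, (∀ i, ev x (g i) = 0) → ev x (member g c) = 0 := by
    intro x hx
    rw [ev_member, val_apply]
    refine Finset.sum_eq_zero fun i _ => ?_
    rw [hx i, mul_zero]
  rw [← Finset.card_union_of_disjoint]
  · congr 1
    ext x
    simp only [sol, out, Finset.mem_filter, Finset.mem_univ, true_and, Set.mem_union,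
      Set.mem_range, Set.mem_insert_iff, Finset.mem_union]
    constructor
    · rintro ⟨h2, h3⟩
      by_cases h4 : ∃ i, ev x (g i) ≠ 0
      · exact Or.inr ⟨⟨⟨h2, fun p hp => h3 p (Or.inr hp)⟩, h4⟩, h3 _ (Or.inl rfl)⟩
      · push Not at h4
        refine Or.inl ⟨h2, fun p hp => ?_⟩
        rcases hp with hp | ⟨i, rfl⟩
        · exact h3 p (Or.inr hp)
        · exact h4 i
    · rintro (⟨h2, h3⟩ | ⟨⟨⟨h2, h3⟩, h4⟩, h5⟩)
      · refine ⟨h2, fun p hp => ?_⟩
        rcases hp with rfl | hp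
        · exact hz x fun i => h3 _ (Or.inr ⟨i, rfl⟩)
        · exact h3 p (Or.inl hp)
      · refine ⟨h2, fun p hp => ?_⟩
        rcases hp with rfl | hp
        · exact h5
        · exact h3 p hp
  · rw [Finset.disjoint_left]
    intro x hx hx'
    simp only [sol, out, Finset.mem_filter, Finset.mem_univ, true_and, Set.mem_union,
      Set.mem_range] at hx hx'
    obtain ⟨i, hi⟩ := hx'.1.2
    exact hi (hx.2 _ (Or.inr ⟨i, rfl⟩))

/-- the local function is the Tate term -/
lemma tate_eq (c : Idx M D e → 𝓞 K) (v : HeightOneSpectrum (𝓞 K)) :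
    tate Z g c v = Wl (out Z g v) (fun x i => ev x (g i)) (redG v _ c) := by
  classical
  have hq := q_sub_pos v
  have hq1 : (0 : ℝ) < qv v := by linarith
  unfold tate
  rw [points_eq, points_eq, points_eq, sol_insert, ← sol_union Z g v]
  unfold Wl ind
  rw [Finset.sum_sub_distrib, Finset.sum_const, nsmul_eq_mul, card_kv']
  have h1 : ∑ x ∈ out Z g v, (if val x (fun i => ev x (g i)) (redG v _ c) = 0 then (1 : ℝ)
      else 0) = (((out Z g v).filter fun x => ev x (member g c) = 0).card : ℝ) := by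
    rw [Finset.sum_boole]
    congr 2
    refine Finset.filter_congr fun x _ => ?_
    rw [ev_member]
  rw [h1]
  push_cast
  field_simp
  ring

lemma out_spec (v : HeightOneSpectrum (𝓞 K)) : ∀ x ∈ out Z g v, x ≠ 0 ∧ ∃ i, ev x (g i) ≠ 0 := by
  intro x hx
  simp only [out, sol, Finset.mem_filter, Finset.mem_univ, true_and] at hx
  exact ⟨hx.1.1, hx.2⟩

lemma out_card {A : ℝ} {d : ℕ} {v : HeightOneSpectrum (𝓞 K)}
    (hA : points Z v ≤ A * (qv v : ℝ) ^ d) :
    ((out Z g v).card : ℝ) / ((qv v : ℝ) - 1) ≤ A * (qv v : ℝ) ^ d := by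
  refine le_trans ?_ hA
  rw [points_eq, ← sol_union Z g v]
  refine div_le_div_of_nonneg_right ?_ (q_sub_pos v).le
  push_cast
  have : (0 : ℝ) ≤ ((sol (Z ∪ Set.range g) v).card : ℝ) := Nat.cast_nonneg _
  linarith

lemma finsum_le (X : ℕ) (f : HeightOneSpectrum (𝓞 K) → ℝ) :
    ∑ᶠ v ∈ {v : HeightOneSpectrum (𝓞 K) | Ideal.absNorm v.asIdeal ≤ X}, f v =
      ∑ v ∈ plE K X, f v := by
  have h : {v : HeightOneSpectrum (𝓞 K) | Ideal.absNorm v.asIdeal ≤ X} =
      (plE K X : Set (HeightOneSpectrum (𝓞 K))) := by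
    ext v
    simp only [Finset.mem_coe, mem_plE, Set.mem_ofPred_eq]
  rw [h, finsum_mem_coe_finset]

variable {ι : Type} [Fintype ι]

/-- **The almost-all theorem for the Tate sums**, with a perturbation. -/
theorem main (ω : Module.Basis ι ℤ (𝓞 K)) {d : ℕ} {A : ℝ} (hA0 : 0 ≤ A)
    (hA : ∀ v : HeightOneSpectrum (𝓞 K), points Z v ≤ A * (qv v : ℝ) ^ d)
    (he : ∀ i, e i < D) {δ : ℝ} (hδ : 0 < δ) (T : (Idx M D e → 𝓞 K) → ℕ → ℝ) {C' : ℝ}
    (hT : ∀ (c : Idx M D e → 𝓞 K) (X : ℕ), 1 ≤ X → |T c X - ∑ v ∈ plE K X, tate Z g c v *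
      Real.log (Ideal.absNorm v.asIdeal)| ≤ C' * (X : ℝ) ^ ((d : ℝ) / 2 + δ / 2)) :
    ∃ C : ℝ, 0 < C ∧ ∀ (N : ℕ) (B : Idx M D e × ι → ℕ), (∀ j, N ≤ B j) → ∀ X₀ : ℝ, 1 ≤ X₀ →
      ({c : Idx M D e → 𝓞 K | c ∈ Box ω B ∧ ∃ X : ℕ, X₀ ≤ X ∧ X ^ (2 * d + 4) ≤ N ∧
        (X : ℝ) ^ ((d : ℝ) / 2 + δ) < |T c X|}.ncard : ℝ) ≤
        C * X₀ ^ (-δ) * ((Box ω B).ncard : ℝ) := by
  classical
  obtain ⟨C, hC0, hC⟩ := almost_all_set (κ := Idx M D e) (C' := C') ω
    (by positivity : (0 : ℝ) ≤ (d : ℝ) / 2) (by positivity : (0 : ℝ) ≤ (d : ℝ)) hA0 hA0 hδ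
    (fun v a => Wl (out Z g v) (fun x i => ev x (g i)) a)
    (fun v => Wl_mean (out_spec Z g v))
    (fun v => by
      have hq := q_sub_pos v
      have hq1 : (0 : ℝ) < qv v := by linarith
      refine (Wl_sq he (out_spec Z g v)).trans ?_
      rw [card_kv']
      refine (mul_le_mul_of_nonneg_right (out_card Z g (hA v)) (by positivity)).trans
        (le_of_eq ?_)
      have h1 : 2 * ((d : ℝ) / 2) - 1 = (d : ℝ) - 1 := by ring
      rw [h1, Real.rpow_sub_one hq1.ne', Real.rpow_natCast]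
      ring)
    (fun v a => by
      refine (Wl_abs (P := out Z g v) a).trans ?_
      rw [card_kv', Real.rpow_natCast]
      exact out_card Z g (hA v))
    T
    (fun c X hX => by
      have h1 : ∑ v ∈ plE K X, Real.log (qv v) * Wl (out Z g v) (fun x i => ev x (g i))
          (redG v _ c) = ∑ v ∈ plE K X, tate Z g c v *
          Real.log (Ideal.absNorm v.asIdeal) := by
        refine Finset.sum_congr rfl fun v _ => ?_
        rw [tate_eq]
        ring
      rw [h1]
      exact hT c X hX)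
  refine ⟨C, hC0, fun N B hB X₀ hX₀ => ?_⟩
  have h1 := hC N B hB X₀ hX₀
  refine le_trans (le_of_eq ?_) h1
  congr 2
  ext c
  have h2 : ∀ X : ℕ, ((X : ℝ) ^ (2 * (d : ℝ) + 4) ≤ N ↔ X ^ (2 * d + 4) ≤ N) := by
    intro X
    have h3 : (2 * (d : ℝ) + 4) = ((2 * d + 4 : ℕ) : ℝ) := by push_cast; ring
    rw [h3, Real.rpow_natCast]
    exact_mod_cast Iff.rfl
  simp only [h2]
  rfl

end

end Pool.Agent.T6.H9.NL
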