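import Mathlib

/-!
# Definitions for the average of the Tate sums of the members of a linear system

Owner helper9.
-/

set_option autoImplicit false

open NumberField IsDedekindDomain

namespace Pool.Agent.T6.H9.TateAvg

variable {K : Type} [Field K] [NumberField K]

/-- The exponents of the monomials of degree `a` in `M` variables. -/
abbrev Mon (M a : ℕ) : Type := {e : Fin M → Fin (a + 1) // ∑ j, (e j : ℕ) = a}

/-- The indices of the coefficients of a family `(h_i)` of forms in `M` variables, with `h_i` of
degree `D - e_i`. -/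
abbrev Idx {σ : Type} (M D : ℕ) (e : σ → ℕ) : Type := Σ i : σ, Mon M (D - e i)

/-- The form `f = ∑_i h_i g_i` of degree `D`, where `h_i` is the form of degree `D - e_i` with the
coefficients `c(i, ·)`. -/
noncomputable def member {σ : Type} [Fintype σ] {M D : ℕ} {e : σ → ℕ}
    (g : σ → MvPolynomial (Fin M) (𝓞 K)) (c : Idx M D e → 𝓞 K) : MvPolynomial (Fin M) (𝓞 K) :=
  ∑ p : Idx M D e,
    MvPolynomial.C (c p) * (∏ j, MvPolynomial.X j ^ (p.2.1 j : ℕ)) * g p.1

/-- The number of points over the residue field at `v` of the closed subset of the projective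
`(M-1)`-space defined by the forms in `S`: the number of non-zero solutions divided by `q - 1`. -/
noncomputable def points {M : ℕ} (S : Set (MvPolynomial (Fin M) (𝓞 K)))
    (v : HeightOneSpectrum (𝓞 K)) : ℝ :=
  (Nat.card {x : Fin M → 𝓞 K ⧸ v.asIdeal // x ≠ 0 ∧
    ∀ p ∈ S, MvPolynomial.eval₂Hom (Ideal.Quotient.mk v.asIdeal) x p = 0} : ℝ) /
    ((Ideal.absNorm v.asIdeal : ℝ) - 1)

/-- For `Z` and the subset `W` of `Z` where all `g_i` vanish, the number of points of `X_f`, the subset `f = 0` of
`Z`, minus the number of points of `W` and minus `q^{-1}` times the number of points of `Z` outside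
`W`. -/
noncomputable def tate {σ : Type} [Fintype σ] {M D : ℕ} {e : σ → ℕ}
    (Z : Set (MvPolynomial (Fin M) (𝓞 K))) (g : σ → MvPolynomial (Fin M) (𝓞 K))
    (c : Idx M D e → 𝓞 K) (v : HeightOneSpectrum (𝓞 K)) : ℝ :=
  points (insert (member g c) Z) v - points (Z ∪ Set.range g) v -
    (points Z v - points (Z ∪ Set.range g) v) / (Ideal.absNorm v.asIdeal : ℝ)

/-- The forms which cut out the union of the lines `x_1 = a_j x_0, x_3 = b_j x_2` in the projective
`3`-space: the products of one of the two linear forms for every `j`. -/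
noncomputable def lineForms {r : ℕ} (a b : Fin r → 𝓞 K) (σ : Fin r → Bool) :
    MvPolynomial (Fin 4) (𝓞 K) :=
  ∏ j, if σ j then MvPolynomial.X 1 - MvPolynomial.C (a j) * MvPolynomial.X 0
    else MvPolynomial.X 3 - MvPolynomial.C (b j) * MvPolynomial.X 2

/-- The vectors of coefficients whose coordinates with respect to the integral basis `ω` are
bounded by `B`. -/
def Box {ι κ : Type} [Fintype ι] (ω : Module.Basis ι ℤ (𝓞 K)) (B : κ × ι → ℕ) :
    Set (κ → 𝓞 K) :=
  {c | ∀ i j, |ω.repr (c i) j| ≤ (B (i, j) : ℤ)}

end Pool.Agent.T6.H9.TateAvg
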