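import Pool.Agent.T6.H9.NL.Main

/-!
# Surfaces containing given lines

Owner helper9.
-/

set_option autoImplicit false
set_option linter.unusedSectionVars false
set_option linter.style.haveILetI false
set_option linter.unusedVariables false

open Finset NumberField IsDedekindDomain

namespace Pool.Agent.T6.H9.NL

open Pool.Agent.T6.H9.MV Pool.Agent.T6.H9.HY Pool.Agent.T6.H9.QM Pool.Agent.T6.H9.TateAvg

section

variable {K : Type} [Field K] [NumberField K] {r : ℕ} (a b : Fin r → 𝓞 K)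

/-- reduction -/
abbrev rd (v : HeightOneSpectrum (𝓞 K)) (x : 𝓞 K) : kv v := Ideal.Quotient.mk v.asIdeal x

lemma ev_lineForms (v : HeightOneSpectrum (𝓞 K)) (x : Fin 4 → kv v) (s : Fin r → Bool) :
    ev x (lineForms a b s) = ∏ j, if s j then x 1 - rd v (a j) * x 0
      else x 3 - rd v (b j) * x 2 := by
  unfold ev lineForms
  rw [map_prod]
  refine Finset.prod_congr rfl fun j _ => ?_
  split_ifs
  · rw [map_sub, map_mul, MvPolynomial.coe_eval₂Hom, MvPolynomial.eval₂_X, MvPolynomial.eval₂_X,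
      MvPolynomial.eval₂_C]
  · rw [map_sub, map_mul, MvPolynomial.coe_eval₂Hom, MvPolynomial.eval₂_X, MvPolynomial.eval₂_X,
      MvPolynomial.eval₂_C]

lemma ev_lines_iff (v : HeightOneSpectrum (𝓞 K)) (x : Fin 4 → kv v) :
    (∀ s : Fin r → Bool, ev x (lineForms a b s) = 0) ↔
      ∃ j, x 1 = rd v (a j) * x 0 ∧ x 3 = rd v (b j) * x 2 := by
  classical
  constructor
  · intro h
    by_contra hcon
    push Not at hcon
    have h1 := h fun j => decide (x 1 - rd v (a j) * x 0 ≠ 0)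
    rw [ev_lineForms, Finset.prod_eq_zero_iff] at h1
    obtain ⟨j, -, hj⟩ := h1
    by_cases h2 : x 1 - rd v (a j) * x 0 = 0
    · rw [if_neg (by simp [h2])] at hj
      exact hcon j (sub_eq_zero.1 h2) (sub_eq_zero.1 hj)
    · rw [if_pos (by simp [h2])] at hj
      exact h2 hj
  · rintro ⟨j, h1, h2⟩ s
    rw [ev_lineForms]
    refine Finset.prod_eq_zero (Finset.mem_univ j) ?_
    split_ifs
    · rw [h1, sub_self]
    · rw [h2, sub_self]

lemma mem_solL (v : HeightOneSpectrum (𝓞 K)) (x : Fin 4 → kv v) :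
    x ∈ sol (∅ ∪ Set.range (lineForms a b)) v ↔
      x ≠ 0 ∧ ∃ j, x 1 = rd v (a j) * x 0 ∧ x 3 = rd v (b j) * x 2 := by
  classical
  rw [← ev_lines_iff]
  simp [sol]

/-- the parametrisation of a line -/
def par {v : HeightOneSpectrum (𝓞 K)} (α β : kv v) (p : kv v × kv v) : Fin 4 → kv v :=
  ![p.1, α * p.1, p.2, β * p.2]

lemma card_solL_le (v : HeightOneSpectrum (𝓞 K)) :
    ((sol (∅ ∪ Set.range (lineForms a b)) v).card : ℝ) ≤ r * ((qv v : ℝ) ^ 2 - 1) := by
  classical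
  have h1 : sol (∅ ∪ Set.range (lineForms a b)) v ⊆ (univ : Finset (Fin r)).biUnion fun j =>
      ((univ : Finset (kv v × kv v)).erase 0).image (par (rd v (a j)) (rd v (b j))) := by
    intro x hx
    obtain ⟨h0, j, h2, h3⟩ := (mem_solL a b v x).1 hx
    rw [Finset.mem_biUnion]
    refine ⟨j, Finset.mem_univ j, Finset.mem_image.2 ⟨(x 0, x 2), Finset.mem_erase.2
      ⟨?_, Finset.mem_univ _⟩, ?_⟩⟩
    · intro h4
      apply h0
      have h5 : x 0 = 0 := congrArg Prod.fst h4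
      have h6 : x 2 = 0 := congrArg Prod.snd h4
      rw [h5, mul_zero] at h2
      rw [h6, mul_zero] at h3
      funext i
      fin_cases i
      · exact h5
      · exact h2
      · exact h6
      · exact h3
    · funext i
      fin_cases i
      · rfl
      · exact h2.symm
      · rfl
      · exact h3.symm
  have h2 := (Finset.card_le_card h1).trans Finset.card_biUnion_le
  have h3 : ∀ j : Fin r, (((univ : Finset (kv v × kv v)).erase 0).image
      (par (rd v (a j)) (rd v (b j)))).card ≤ qv v ^ 2 - 1 := by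
    intro j
    refine Finset.card_image_le.trans ?_
    rw [Finset.card_erase_of_mem (Finset.mem_univ _), Finset.card_univ, Fintype.card_prod,
      card_kv', ← sq]
  have h4 := h2.trans (Finset.sum_le_sum fun j _ => h3 j)
  rw [Finset.sum_const, Finset.card_univ, Fintype.card_fin, smul_eq_mul] at h4
  have h5 : ((qv v ^ 2 - 1 : ℕ) : ℝ) = (qv v : ℝ) ^ 2 - 1 := by
    have h6 : 1 ≤ qv v ^ 2 := Nat.one_le_pow _ _ (by have := two_le_qv v; omega)
    rw [Nat.cast_sub h6]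
    push_cast
    rfl
  rw [← h5]
  exact_mod_cast h4

lemma card_solL_ge (v : HeightOneSpectrum (𝓞 K))
    (hv : ∀ i j, rd v (a i) = rd v (a j) → rd v (b i) = rd v (b j) → i = j) :
    r * ((qv v : ℝ) - 1) ^ 2 ≤ ((sol (∅ ∪ Set.range (lineForms a b)) v).card : ℝ) := by
  classical
  have h1 : ((univ : Finset (Fin r)) ×ˢ (((univ : Finset (kv v)).erase 0) ×ˢ
      ((univ : Finset (kv v)).erase 0))).card ≤
      (sol (∅ ∪ Set.range (lineForms a b)) v).card := by
    refine Finset.card_le_card_of_injOn (fun p => par (rd v (a p.1)) (rd v (b p.1)) p.2) ?_ ?_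
    · intro p hp
      rw [Finset.mem_coe, Finset.mem_product, Finset.mem_product, Finset.mem_erase] at hp
      rw [Finset.mem_coe, mem_solL]
      refine ⟨fun h => hp.2.1.1 (congrFun h 0), p.1, rfl, rfl⟩
    · intro p hp q hq hpq
      rw [Finset.mem_coe, Finset.mem_product, Finset.mem_product, Finset.mem_erase,
        Finset.mem_erase] at hp
      beta_reduce at hpq
      have e0 : p.2.1 = q.2.1 := congrFun hpq 0
      have e1 : rd v (a p.1) * p.2.1 = rd v (a q.1) * q.2.1 := congrFun hpq 1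
      have e2 : p.2.2 = q.2.2 := congrFun hpq 2
      have e3 : rd v (b p.1) * p.2.2 = rd v (b q.1) * q.2.2 := congrFun hpq 3
      rw [← e0] at e1
      rw [← e2] at e3
      have e4 := hv p.1 q.1 (mul_right_cancel₀ hp.2.1.1 e1) (mul_right_cancel₀ hp.2.2.1 e3)
      exact Prod.ext e4 (Prod.ext e0 e2)
  rw [Finset.card_product, Finset.card_product, Finset.card_erase_of_mem (Finset.mem_univ _),
    Finset.card_univ, Finset.card_univ, Fintype.card_fin, card_kv'] at h1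
  have h5 : ((qv v - 1 : ℕ) : ℝ) = (qv v : ℝ) - 1 := by
    rw [Nat.cast_sub (by have := two_le_qv v; omega), Nat.cast_one]
  rw [sq, ← h5]
  exact_mod_cast h1

/-- the norms of the differences -/
noncomputable def wt (a b : Fin r → 𝓞 K) (i j : Fin r) : ℝ :=
  (Ideal.absNorm (Ideal.span {a i - a j}) : ℝ) + (Ideal.absNorm (Ideal.span {b i - b j}) : ℝ)

lemma wt_nonneg (i j : Fin r) : 0 ≤ wt a b i j := add_nonneg (Nat.cast_nonneg _) (Nat.cast_nonneg _)

lemma le_wt {v : HeightOneSpectrum (𝓞 K)} {i j : Fin r} (h1 : rd v (a i) = rd v (a j))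
    (h2 : rd v (b i) = rd v (b j)) (h3 : (a i, b i) ≠ (a j, b j)) : (qv v : ℝ) ≤ wt a b i j := by
  unfold wt
  by_cases h5 : a i = a j
  · have h6 : b i - b j ≠ 0 := sub_ne_zero.2 fun h => h3 (Prod.ext h5 h)
    have h7 : b i - b j ∈ v.asIdeal := (Ideal.Quotient.mk_eq_mk_iff_sub_mem _ _).1 h2
    have h8 : qv v ≤ Ideal.absNorm (Ideal.span {b i - b j}) := qv_le_norm h7 h6
    exact ((Nat.cast_le (α := ℝ)).2 h8).trans (le_add_of_nonneg_left (Nat.cast_nonneg _))
  · have h6 : a i - a j ≠ 0 := sub_ne_zero.2 h5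
    have h7 : a i - a j ∈ v.asIdeal := (Ideal.Quotient.mk_eq_mk_iff_sub_mem _ _).1 h1
    have h8 : qv v ≤ Ideal.absNorm (Ideal.span {a i - a j}) := qv_le_norm h7 h6
    exact ((Nat.cast_le (α := ℝ)).2 h8).trans (le_add_of_nonneg_right (Nat.cast_nonneg _))

lemma exists_M0 (hab : Function.Injective fun j => (a j, b j)) : ∃ M0 : ℝ, 0 ≤ M0 ∧
    ∀ (v : HeightOneSpectrum (𝓞 K)) (i j : Fin r), rd v (a i) = rd v (a j) →
      rd v (b i) = rd v (b j) → i ≠ j → (qv v : ℝ) ≤ M0 := by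
  refine ⟨∑ i, ∑ j, wt a b i j, Finset.sum_nonneg fun i _ => Finset.sum_nonneg fun j _ =>
    wt_nonneg a b i j, fun v i j h1 h2 hij => ?_⟩
  have h3 : (a i, b i) ≠ (a j, b j) := fun h => hij (hab h)
  refine (le_wt a b h1 h2 h3).trans ?_
  refine le_trans ?_ (Finset.single_le_sum (f := fun i => ∑ j, wt a b i j)
    (fun i _ => Finset.sum_nonneg fun j _ => wt_nonneg a b i j) (Finset.mem_univ i))
  exact Finset.single_le_sum (f := fun j => wt a b i j) (fun j _ => wt_nonneg a b i j)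
    (Finset.mem_univ j)

/-- the number of points of the union of the lines -/
lemma points_lines (hab : Function.Injective fun j => (a j, b j)) : ∃ D₀ : ℝ, 0 ≤ D₀ ∧
    ∀ v : HeightOneSpectrum (𝓞 K),
      |points (∅ ∪ Set.range (lineForms a b)) v - r * (qv v : ℝ)| ≤ D₀ := by
  classical
  obtain ⟨M0, hM00, hM0⟩ := exists_M0 a b hab
  refine ⟨r + r * M0, by positivity, fun v => ?_⟩
  have hq := q_sub_pos v
  rw [points_eq]
  set U : ℝ := ((sol (∅ ∪ Set.range (lineForms a b)) v).card : ℝ) with hU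
  have hU0 : 0 ≤ U := Nat.cast_nonneg _
  have hr : (0 : ℝ) ≤ r := Nat.cast_nonneg _
  have hup : U / ((qv v : ℝ) - 1) ≤ r * ((qv v : ℝ) + 1) := by
    rw [div_le_iff₀ hq]
    refine (card_solL_le a b v).trans (le_of_eq ?_)
    ring
  have h2 : (r : ℝ) * ((qv v : ℝ) + 1) = r * (qv v : ℝ) + r := by ring
  rw [h2] at hup
  have h1 : 0 ≤ r * M0 := mul_nonneg hr hM00
  by_cases hv : ∀ i j, rd v (a i) = rd v (a j) → rd v (b i) = rd v (b j) → i = j
  · have hlo : r * ((qv v : ℝ) - 1) ≤ U / ((qv v : ℝ) - 1) := by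
      rw [le_div_iff₀ hq]
      refine le_trans (le_of_eq ?_) (card_solL_ge a b v hv)
      ring
    rw [abs_le]
    have h3 : (r : ℝ) * ((qv v : ℝ) - 1) = r * (qv v : ℝ) - r := by ring
    rw [h3] at hlo
    constructor
    · linarith
    · linarith
  · push Not at hv
    obtain ⟨i, j, g1, g2, hij⟩ := hv
    have hqM : (qv v : ℝ) ≤ M0 := hM0 v i j g1 g2 hij
    have h5 : 0 ≤ U / ((qv v : ℝ) - 1) := div_nonneg hU0 hq.le
    have h6 : (r : ℝ) * (qv v : ℝ) ≤ r * M0 := mul_le_mul_of_nonneg_left hqM (Nat.cast_nonneg _)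
    rw [abs_le]
    constructor
    · linarith
    · linarith

lemma points_all (v : HeightOneSpectrum (𝓞 K)) :
    points (∅ : Set (MvPolynomial (Fin 4) (𝓞 K))) v =
      (qv v : ℝ) ^ 3 + (qv v : ℝ) ^ 2 + (qv v : ℝ) + 1 := by
  classical
  have hq := q_sub_pos v
  rw [points_eq]
  have h1 : sol (∅ : Set (MvPolynomial (Fin 4) (𝓞 K))) v = univ.erase 0 := by
    ext x
    simp [sol]
  rw [h1, Finset.card_erase_of_mem (Finset.mem_univ _), Finset.card_univ, Fintype.card_fun,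
    card_kv', Fintype.card_fin]
  have h2 : ((qv v ^ 4 - 1 : ℕ) : ℝ) = (qv v : ℝ) ^ 4 - 1 := by
    have h6 : 1 ≤ qv v ^ 4 := Nat.one_le_pow _ _ (by have := two_le_qv v; omega)
    rw [Nat.cast_sub h6]
    push_cast
    rfl
  rw [h2, div_eq_iff hq.ne']
  ring

/-- the comparison with the number of lines -/
lemma tate_lines (hab : Function.Injective fun j => (a j, b j)) : ∃ D₁ : ℝ, 0 ≤ D₁ ∧
    ∀ {D : ℕ} (c : Idx 4 D (fun _ : Fin r → Bool => r) → 𝓞 K) (v : HeightOneSpectrum (𝓞 K)),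
      |(points {member (lineForms a b) c} v - (qv v : ℝ) ^ 2 - (qv v : ℝ) - 1 -
        r * (qv v : ℝ)) - tate ∅ (lineForms a b) c v| ≤ D₁ := by
  obtain ⟨D₀, hD0, hD⟩ := points_lines a b hab
  refine ⟨2 * D₀ + 1 + r, by positivity, fun {D} c v => ?_⟩
  have hq := q_sub_pos v
  have hq1 : (1 : ℝ) ≤ qv v := by linarith
  have hq0 : (0 : ℝ) < qv v := by linarith
  have h1 := hD v
  set w : ℝ := points (∅ ∪ Set.range (lineForms a b)) v with hw
  have h2 : points {member (lineForms a b) c} v - (qv v : ℝ) ^ 2 - (qv v : ℝ) - 1 -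
        r * (qv v : ℝ) - tate ∅ (lineForms a b) c v =
      (w - r * (qv v : ℝ)) + 1 / (qv v : ℝ) - (w - r * (qv v : ℝ)) / (qv v : ℝ) - r := by
    unfold tate
    rw [points_all, insert_empty_eq]
    rw [← hw]
    field_simp
    ring
  rw [h2]
  have h3 : |(w - r * (qv v : ℝ)) / (qv v : ℝ)| ≤ D₀ := by
    rw [abs_div, abs_of_pos hq0]
    exact (div_le_self (abs_nonneg _) hq1).trans h1
  have h4 : 1 / (qv v : ℝ) ≤ 1 := by
    rw [div_le_one hq0]
    exact hq1
  have h5 : 0 < 1 / (qv v : ℝ) := by positivity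
  have hr : (0 : ℝ) ≤ r := Nat.cast_nonneg _
  rw [abs_le] at h1 h3 ⊢
  constructor <;> linarith

lemma sum_log_le (D₁ : ℝ) (hD : 0 ≤ D₁) : ∃ C' : ℝ, 0 ≤ C' ∧ ∀ X : ℕ,
    ∑ v ∈ plE K X, D₁ * Real.log (qv v) ≤ C' * (X : ℝ) ^ ((3 : ℝ) / 2) := by
  have h0 : (0 : ℝ) ≤ ∑' v : HeightOneSpectrum (𝓞 K), (qv v : ℝ) ^ (-(1 + (1 / 4 : ℝ))) :=
    tsum_nonneg fun v => Real.rpow_nonneg (Nat.cast_nonneg _) _
  refine ⟨D₁ / (1 / 4) * ∑' v : HeightOneSpectrum (𝓞 K), (qv v : ℝ) ^ (-(1 + (1 / 4 : ℝ))),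
    by positivity, fun X => ?_⟩
  have h1 := sum_le_of (K := K) (f := fun v => D₁ * Real.log (qv v)) (c := D₁ / (1 / 4))
    (a := 1 / 4) (ε := 1 / 4) (by positivity) (by norm_num) (by norm_num) (fun v => by
      have h2 := log_le_rpow (one_le_qvR v) (by norm_num : (0 : ℝ) < 1 / 4)
      calc D₁ * Real.log (qv v) ≤ D₁ * ((qv v : ℝ) ^ (1 / 4 : ℝ) / (1 / 4)) :=
            mul_le_mul_of_nonneg_left h2 hD
        _ = _ := by ring) (X := X)
  have h2 : (1 / 4 : ℝ) + 1 + 1 / 4 = 3 / 2 := by norm_num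
  rwa [h2] at h1

variable {ι : Type} [Fintype ι]

/-- **Surfaces through given lines.** -/
theorem lines (ω : Module.Basis ι ℤ (𝓞 K)) (hab : Function.Injective fun j => (a j, b j))
    {D : ℕ} (hD : r < D) {δ : ℝ} (hδ : 0 < δ) :
    ∃ C : ℝ, 0 < C ∧ ∀ (N : ℕ) (B : Idx 4 D (fun _ : Fin r → Bool => r) × ι → ℕ),
      (∀ j, N ≤ B j) → ∀ X₀ : ℝ, 1 ≤ X₀ →
      ({c : Idx 4 D (fun _ : Fin r → Bool => r) → 𝓞 K | c ∈ Box ω B ∧
        ∃ X : ℕ, X₀ ≤ X ∧ X ^ 10 ≤ N ∧
        (X : ℝ) ^ ((3 : ℝ) / 2 + δ) < |∑ᶠ v ∈ {v : HeightOneSpectrum (𝓞 K) |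
          Ideal.absNorm v.asIdeal ≤ X}, (points {member (lineForms a b) c} v -
            (Ideal.absNorm v.asIdeal : ℝ) ^ 2 - (Ideal.absNorm v.asIdeal : ℝ) - 1 -
            r * (Ideal.absNorm v.asIdeal : ℝ)) *
            Real.log (Ideal.absNorm v.asIdeal)|}.ncard : ℝ) ≤
        C * X₀ ^ (-δ) * ((Box ω B).ncard : ℝ) := by
  classical
  obtain ⟨D₁, hD0, hD1⟩ := tate_lines a b hab
  obtain ⟨C', hC0, hC'⟩ := sum_log_le (K := K) D₁ hD0
  have h := main (D := D) (e := fun _ : Fin r → Bool => r) ∅ (lineForms a b) ω (d := 3) (A := 4)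
    (by norm_num) (fun v => by
      rw [points_all]
      have hq1 := one_le_qvR v
      have h1 : (1 : ℝ) ≤ (qv v : ℝ) ^ 3 := one_le_pow₀ hq1
      have h2 : (qv v : ℝ) ≤ (qv v : ℝ) ^ 3 := le_self_pow₀ hq1 (by norm_num)
      have h3 : (qv v : ℝ) ^ 2 ≤ (qv v : ℝ) ^ 3 := pow_le_pow_right₀ hq1 (by norm_num)
      linarith) (fun _ => hD) hδ
    (fun c X => ∑ᶠ v ∈ {v : HeightOneSpectrum (𝓞 K) |
          Ideal.absNorm v.asIdeal ≤ X}, (points {member (lineForms a b) c} v -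
            (Ideal.absNorm v.asIdeal : ℝ) ^ 2 - (Ideal.absNorm v.asIdeal : ℝ) - 1 -
            r * (Ideal.absNorm v.asIdeal : ℝ)) * Real.log (Ideal.absNorm v.asIdeal))
    (C' := C')
    (fun c X hX => by
      rw [finsum_le, ← Finset.sum_sub_distrib]
      have hX1 : (1 : ℝ) ≤ X := by exact_mod_cast hX
      refine (Finset.abs_sum_le_sum_abs _ _).trans ?_
      refine le_trans (Finset.sum_le_sum (g := fun v => D₁ * Real.log (qv v)) fun v _ => ?_)
        ((hC' X).trans ?_)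
      · rw [← sub_mul, abs_mul, abs_of_nonneg (Real.log_nonneg (one_le_qvR v))]
        exact mul_le_mul_of_nonneg_right (hD1 c v) (Real.log_nonneg (one_le_qvR v))
      · refine mul_le_mul_of_nonneg_left ?_ hC0
        refine Real.rpow_le_rpow_of_exponent_le hX1 ?_
        push_cast
        linarith)
  obtain ⟨C, hC1, hC⟩ := h
  refine ⟨C, hC1, fun N B hB X₀ hX₀ => ?_⟩
  have h1 := hC N B hB X₀ hX₀
  simp only [Nat.cast_ofNat] at h1
  exact h1

end

end Pool.Agent.T6.H9.NL
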